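import Mathlib
import Pool.Agent.Helper888.PRCore

/-!
# MP_94a925_gt: `C_p([0,1])` does not embed in a pseudoradial space
-/

set_option autoImplicit false

open Set Filter Topology
open Pool.Agent.Helper888.PR

namespace Pool.Agent.Results.MP_94a925_gt.NoEmbedding

universe u

/-- No pseudoradial regular Hausdorff (in particular no pseudoradial Tychonoff) space `Z` contains a
subspace homeomorphic to `C_p([0,1])`. -/
theorem result (Z : Type u) [TopologicalSpace Z] [T3Space Z] (hZ : Pseudoradial Z) :
    ¬ ∃ e : Cp → Z, IsEmbedding e := by
  rintro ⟨e, he⟩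
  exact main hZ he

end Pool.Agent.Results.MP_94a925_gt.NoEmbedding
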